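import Mathlib
import Pool.Agent.H.MP_19adc1_gt.A

open Set

namespace Pool.Agent.Results.MP_19adc1_gt.NoMackey

/-- `χ` is a character for `τ` -/
def IsChar (τ : TopologicalSpace ℤ) (χ : ℤ →+ UnitAddCircle) : Prop := @Continuous _ _ τ _ χ

/-- locally quasi-convex -/
def LQC (τ : TopologicalSpace ℤ) : Prop :=
  ∀ U ∈ @nhds ℤ τ 0, ∃ A ∈ @nhds ℤ τ 0, A ⊆ U ∧ ∀ x ∉ A, ∃ χ, IsChar τ χ ∧
    (∀ a ∈ A, ‖χ a‖ ≤ 1 / 4) ∧ ¬ ‖χ x‖ ≤ 1 / 4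

/-- precompact -/
def Precompact (τ : TopologicalSpace ℤ) : Prop :=
  ∀ U ∈ @nhds ℤ τ 0, ∃ F : Set ℤ, F.Finite ∧ ∀ x, ∃ f ∈ F, ∃ u ∈ U, f + u = x

/-- Mackey: locally quasi-convex and finer than every compatible Hausdorff topology -/
def Mackey (τ : TopologicalSpace ℤ) : Prop :=
  LQC τ ∧ ∀ σ : TopologicalSpace ℤ, @IsTopologicalAddGroup ℤ σ _ → @T2Space ℤ σ → LQC σ →
    (∀ χ, IsChar σ χ ↔ IsChar τ χ) → τ ≤ σ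

theorem result : ¬ ∃ τ : TopologicalSpace ℤ, @IsTopologicalAddGroup ℤ τ _ ∧
    @TopologicalSpace.MetrizableSpace ℤ τ ∧ Precompact τ ∧ Mackey τ := by
  rintro ⟨τ, h1, h2, h3, h4, h5⟩
  obtain ⟨σ, s1, s2, s3, s4, s5⟩ := Pool.Agent.H.MP_19adc1_gt.main τ h1 inferInstance h3
    fun x hx => by
      obtain ⟨A, -, a2, a3⟩ := h4 {x}ᶜ (isOpen_compl_singleton.mem_nhds hx.symm)
      obtain ⟨χ, c1, -, c2⟩ := a3 x fun h => a2 h rfl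
      exact ⟨χ, c1, fun h => c2 (by simp [h])⟩
  refine s3 (h5 σ s1 (t2Space_antitone s2 inferInstance) (fun W hW => ?_) s4)
  obtain ⟨U, u1, A, a1, a2, a3⟩ := s5 W hW
  obtain ⟨C, c1, c2, c3⟩ := h4 U u1
  refine ⟨C ∩ A, Filter.inter_mem (nhds_mono s2 c1) a1, fun x hx => a2 ⟨c2 hx.1, hx.2⟩,
    fun x hx => ?_⟩
  rcases not_and_or.1 hx with h | h
  · obtain ⟨χ, d1, d2, d3⟩ := c3 x h
    exact ⟨χ, (s4 χ).2 d1, fun a ha => d2 a ha.1, d3⟩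
  · obtain ⟨χ, d1, d2, d3⟩ := a3 x h
    exact ⟨χ, (s4 χ).2 d1, fun a ha => d2 a ha.2, d3.not_ge⟩

end Pool.Agent.Results.MP_19adc1_gt.NoMackey
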